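import Pool.Agent.H58.FL.Targets

/-!
MP_6a7a6f_gt, board flb_modules, row ALG.
-/

open Topology

namespace Pool.Agent.H65.FL

open Pool.Agent.H58.FL Pool.Agent.H59 Pool.Agent.H48.FR

noncomputable section

/-- faces of the support -/
theorem bdL_support {X : Type} (k : ℕ) (c : LL (k + 1) X) (t : Fin k → X)
    (ht : t ∈ (bdL k X c).support) : ∃ s ∈ c.support, ∃ i : Fin (k + 1), t = s ∘ i.succAbove := by
  classical
  by_contra hcon
  push Not at hcon
  rw [Finsupp.mem_support_iff] at ht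
  apply ht
  rw [bdL, altbd, Finsupp.linearCombination_apply, Finsupp.sum, Finsupp.finsetSum_apply]
  refine Finset.sum_eq_zero fun s hs => ?_
  rw [Finsupp.smul_apply, Finsupp.finsetSum_apply]
  rw [Finset.sum_eq_zero fun i _ => ?_, smul_zero]
  rw [Finsupp.smul_apply, Finsupp.single_apply, if_neg (fun h => hcon s hs i h.symm), smul_zero]

theorem ex_mem {X : Type} {k : ℕ} (t : Fin (k + 1) → X) (i : ℕ) : ex t i ∈ Set.range t :=
  ⟨_, rfl⟩

theorem PL_comp {X Y : Type} (φ : Y → X) (L : List (X → X → X → ℝ)) (x : ℕ → Y) :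
    PL L (fun i => φ (x i)) = PL (L.map fun g a b c => g (φ a) (φ b) (φ c)) x := by
  induction L generalizing x with
  | nil => rfl
  | cons g L ih =>
    rw [List.map_cons]
    unfold H58.FL.PL
    unfold cup
    have h1 : sh 2 (fun i => φ (x i)) = fun i => φ (sh 2 x i) := rfl
    rw [h1, ih]
    rfl

theorem PL_int {X : Type} (S : Set X) (L : List (X → X → X → ℝ))
    (h : ∀ g ∈ L, ∀ a ∈ S, ∀ b ∈ S, ∀ c ∈ S, ∃ k : ℤ, g a b c = k) (x : ℕ → X)
    (hx : ∀ i, x i ∈ S) : ∃ k : ℤ, PL L x = k := by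
  induction L generalizing x with
  | nil => exact ⟨1, by simp [H58.FL.PL]⟩
  | cons g L ih =>
    obtain ⟨k1, h1⟩ := h g (by simp) (x 0) (hx 0) (x 1) (hx 1) (x 2) (hx 2)
    obtain ⟨k2, h2⟩ := ih (fun g hg => h g (by simp [hg])) (sh 2 x) (fun i => hx _)
    refine ⟨k1 * k2, ?_⟩
    unfold H58.FL.PL cup c2
    rw [h1, h2]
    push_cast
    ring

/-- vanishing on the boundary -/
theorem ev_bd_zero (hLOW : T_LOW) (hEVB : T_EVB) (hCPL : T_CPL) {X : Type} (K : Set (Set X))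
    (hK : Down K) (n : ℕ) (L : List (X → X → X → ℝ)) (hn : L.length = n)
    (hL : ∀ g ∈ L, Cl2 K g) (b : LL (2 * n + 2) X) (hb : On K b) :
    ev (2 * n) (PL L) (bdL (2 * n + 1) X b) = 0 := by
  obtain ⟨-, -, -, -, -, -, -, -, hD, -, -⟩ := hLOW X
  have hdep : Dep (2 * n) (PL L) := by
    have := hD L
    rwa [hn] at this
  rw [hEVB X (2 * n) (PL L) b hdep]
  unfold ev
  refine Finset.sum_eq_zero fun t ht => ?_
  have h1 := hCPL X K hK L hL (ex t) ?_
  · rw [hn] at h1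
    show ((b t : ℤ) : ℝ) * dl (2 * n) (H58.FL.PL L) (ex t) = 0
    rw [h1, mul_zero]
  · have h2 : fs (2 * L.length + 1) (ex t) ⊆ Set.range t := by
      rintro y ⟨i, -, rfl⟩
      exact ex_mem t i
    exact hK _ (hb t ht) _ h2

theorem KA_down {X : Type} (V : Set (Set X)) (hV : Down V) (m : X → X → X → X → ℤ) :
    Down (KA V m) := by
  intro S hS T hT
  exact ⟨hV _ hS.1 _ (Set.image_mono hT), fun x hx y hy z hz w hw =>
    hS.2 x (hT hx) y (hT hy) z (hT hz) w (hT hw)⟩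

theorem KB_down {X : Type} (V : Set (Set X)) (hV : Down V) (m : X → X → X → X → ℤ) :
    Down (KB V m) := by
  intro S hS T hT
  exact ⟨KA_down V hV m _ hS.1 _ hT, fun x hx y hy z hz w hw =>
    hS.2 x (hT hx) y (hT hy) z (hT hz) w (hT hw)⟩

/-- five labels: one is missing, or four different ones -/
theorem five : ∀ a b c d e : Fin 4,
    (∃ l, l ≠ a ∧ l ≠ b ∧ l ≠ c ∧ l ≠ d ∧ l ≠ e) ∨
    sg4 a b c d ≠ 0 ∨ sg4 a b c e ≠ 0 ∨ sg4 a b d e ≠ 0 ∨ sg4 a c d e ≠ 0 ∨ sg4 b c d e ≠ 0 := by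
  decide

theorem pf_ALG (hLOW : T_LOW) (hEVB : T_EVB) (hEVL : T_EVL) (hCPL : T_CPL) (hAA : T_AA)
    (hAB : T_AB) (hLAB : T_LAB) (hLFT : T_LFT) (hTWL : T_TWL) : T_ALG := by
  classical
  intro X V hV f θ m hint hd2 hlab n hn b hb hbd
  obtain ⟨hL1, hL2, hL3, -, -, -, hL7, hL8, -, -⟩ := hLAB
  obtain ⟨-, -, -, -, -, -, -, -, hDep, -, -⟩ := hLOW (X × Fin 4)
  -- the two parts of the chain
  set P : (Fin (2 * n + 2) → X) → Prop := fun t => ∃ i j k l, m (t i) (t j) (t k) (t l) ≠ 0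
    with hP
  set b1 : LL (2 * n + 2) X := Finsupp.filter P b with hb1
  set b0 : LL (2 * n + 2) X := Finsupp.filter (fun t => ¬ P t) b with hb0
  have hsum : b1 + b0 = b := Finsupp.filter_add_filter_not b P
  have hb1s : ∀ t ∈ b1.support, t ∈ b.support ∧ P t := by
    intro t ht
    rw [hb1, Finsupp.support_filter, Finset.mem_filter] at ht
    exact ht
  have hb0s : ∀ t ∈ b0.support, t ∈ b.support ∧ ¬ P t := by
    intro t ht
    rw [hb0, Finsupp.support_filter, Finset.mem_filter] at ht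
    exact ht
  -- the part without monopoles
  set V0 : Set (Set X) := {S | S ∈ V ∧ ∀ x ∈ S, ∀ y ∈ S, ∀ z ∈ S, ∀ w ∈ S, m x y z w = 0} with hV0
  have hV0d : Down V0 := fun S hS T hT => ⟨hV _ hS.1 _ hT, fun x hx y hy z hz w hw =>
    hS.2 x (hT hx) y (hT hy) z (hT hz) w (hT hw)⟩
  have hV0f : Cl2 V0 f := by
    intro S hS x hx y hy z hz w hw
    rw [hd2 S hS.1 x hx y hy z hz w hw, hS.2 x hx y hy z hz w hw, Int.cast_zero]
  have hOn0 : On V0 b0 := by
    intro t ht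
    obtain ⟨h1, h2⟩ := hb0s t ht
    refine ⟨hb t h1, ?_⟩
    rintro x ⟨i, rfl⟩ y ⟨j, rfl⟩ z ⟨k, rfl⟩ w ⟨l, rfl⟩
    by_contra hne
    exact h2 ⟨i, j, k, l, hne⟩
  have hev0 : ev (2 * n) (PL (List.replicate n f)) (bdL (2 * n + 1) X b0) = 0 :=
    ev_bd_zero hLOW hEVB hCPL V0 hV0d n _ (List.length_replicate) (by
      intro g hg
      rw [List.eq_of_mem_replicate hg]
      exact hV0f) b0 hOn0
  have hbdsum : bdL (2 * n + 1) X b1 + bdL (2 * n + 1) X b0 = bdL (2 * n + 1) X b := by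
    rw [← map_add, hsum]
  -- the boundary of the other part has no monopoles
  have hbd0 : ∀ t ∈ (bdL (2 * n + 1) X b0).support, ∀ i j k l,
      m (t i) (t j) (t k) (t l) = 0 := by
    intro t ht i j k l
    obtain ⟨s, hs, e, rfl⟩ := bdL_support (2 * n + 1) b0 t ht
    exact (hOn0 s hs).2 _ ⟨_, rfl⟩ _ ⟨_, rfl⟩ _ ⟨_, rfl⟩ _ ⟨_, rfl⟩
  have hbd1 : ∀ t ∈ (bdL (2 * n + 1) X b1).support, ∀ i j k l,
      m (t i) (t j) (t k) (t l) = 0 := by
    intro t ht
    have h1 : bdL (2 * n + 1) X b1 = bdL (2 * n + 1) X b - bdL (2 * n + 1) X b0 := by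
      rw [← hbdsum, add_sub_cancel_right]
    rw [h1] at ht
    have h2 := Finsupp.support_sub ht
    rw [Finset.mem_union] at h2
    rcases h2 with h2 | h2
    · exact hbd t h2
    · exact hbd0 t h2
  obtain ⟨bb, hmap, hOnA, hOnB, hinv⟩ := hLFT X V hV m hlab (2 * n) b1
    (fun t ht => hb t (hb1s t ht).1) (fun t ht => (hb1s t ht).2) hbd1
  set z : LL (2 * n + 1) (X × Fin 4) := bdL (2 * n + 1) (X × Fin 4) bb with hz
  have hzc : bdL (2 * n) (X × Fin 4) z = 0 := bdL_bdL (2 * n) bb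
  set fF : X × Fin 4 → X × Fin 4 → X × Fin 4 → ℝ := fun x y w => f x.1 y.1 w.1 with hfF
  set ph : X × Fin 4 → X × Fin 4 → X × Fin 4 → ℝ := fun x y w =>
    ((sg3 x.2 y.2 w.2 : ℤ) : ℝ) / 4 with hph
  set th : X × Fin 4 → X × Fin 4 → ℝ := fun x y => θ x.1 y.1 with hth
  set lam : X × Fin 4 → X × Fin 4 → ℝ := fun x y => ((x2 x.2 y.2 : ℤ) : ℝ) / 2 with hlam
  have hfFd : ∀ S ∈ KA V m, ∀ x ∈ S, ∀ y ∈ S, ∀ w ∈ S, ∀ v ∈ S,
      d2 fF x y w v = m x.1 y.1 w.1 v.1 := by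
    intro S hS x hx y hy w hw v hv
    exact hd2 (Prod.fst '' S) hS.1 x.1 ⟨x, hx, rfl⟩ y.1 ⟨y, hy, rfl⟩ w.1 ⟨w, hw, rfl⟩ v.1
      ⟨v, hv, rfl⟩
  have hphd : ∀ x y w v : X × Fin 4, d2 ph x y w v = ((sg4 x.2 y.2 w.2 v.2 : ℤ) : ℝ) := by
    intro x y w v
    have h1 := hL1 x.2 y.2 w.2 v.2
    have h2 : ((sg3 y.2 w.2 v.2 : ℤ) : ℝ) - ((sg3 x.2 w.2 v.2 : ℤ) : ℝ) +
        ((sg3 x.2 y.2 v.2 : ℤ) : ℝ) - ((sg3 x.2 y.2 w.2 : ℤ) : ℝ) =
        4 * ((sg4 x.2 y.2 w.2 v.2 : ℤ) : ℝ) := by exact_mod_cast h1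
    unfold d2
    simp only [hph]
    linarith
  -- the difference is closed on KA
  have hpsi : ev (2 * n) (PL (List.replicate n fun a b c => fF a b c - ph a b c)) z = 0 :=
    ev_bd_zero hLOW hEVB hCPL (KA V m) (KA_down V hV m) n _ (List.length_replicate) (by
      intro g hg
      rw [List.eq_of_mem_replicate hg]
      intro S hS x hx y hy w hw v hv
      have h1 := hfFd S hS x hx y hy w hw v hv
      have h2 := hphd x y w v
      have h3 := hS.2 x hx y hy w hw v hv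
      have h4 : d2 (fun a b c => fF a b c - ph a b c) x y w v =
          d2 fF x y w v - d2 ph x y w v := by
        unfold d2
        ring
      rw [h4, h1, h2, h3, sub_self]) bb hOnA
  have hclF : Cl2 (KB V m) fF := by
    intro S hS x hx y hy w hw v hv
    rw [hfFd S hS.1 x hx y hy w hw v hv, hS.2 x hx y hy w hw v hv, Int.cast_zero]
  have hclP : Cl2 (KB V m) ph := by
    intro S hS x hx y hy w hw v hv
    rw [hphd x y w v, ← hS.1.2 x hx y hy w hw v hv, hS.2 x hx y hy w hw v hv, Int.cast_zero]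
  have hpp : ∀ S ∈ KB V m, ∀ x ∈ S, ∀ y ∈ S, ∀ w ∈ S, ∀ v ∈ S, ∀ u ∈ S,
      ph x y w * ph w v u =
        d3 (fun a b c d => ((x4 a.2 b.2 c.2 d.2 : ℤ) : ℝ) / 48) x y w v u := by
    intro S hS x hx y hy w hw v hv u hu
    have hz4 : ∀ a ∈ S, ∀ b ∈ S, ∀ c ∈ S, ∀ d ∈ S, sg4 a.2 b.2 c.2 d.2 = 0 := by
      intro a ha b hb c hc d hd
      rw [← hS.1.2 a ha b hb c hc d hd, hS.2 a ha b hb c hc d hd]
    obtain ⟨l, l1, l2, l3, l4, l5⟩ : ∃ l, l ≠ x.2 ∧ l ≠ y.2 ∧ l ≠ w.2 ∧ l ≠ v.2 ∧ l ≠ u.2 := by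
      rcases five x.2 y.2 w.2 v.2 u.2 with h | h | h | h | h | h
      · exact h
      · exact absurd (hz4 x hx y hy w hw v hv) h
      · exact absurd (hz4 x hx y hy w hw u hu) h
      · exact absurd (hz4 x hx y hy v hv u hu) h
      · exact absurd (hz4 x hx w hw v hv u hu) h
      · exact absurd (hz4 y hy w hw v hv u hu) h
    have h1 := hL2 x.2 y.2 w.2 v.2 u.2 l l1 l2 l3 l4 l5
    have h2 : 3 * (((sg3 x.2 y.2 w.2 : ℤ) : ℝ) * ((sg3 w.2 v.2 u.2 : ℤ) : ℝ)) =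
        ((x4 y.2 w.2 v.2 u.2 : ℤ) : ℝ) - ((x4 x.2 w.2 v.2 u.2 : ℤ) : ℝ) +
        ((x4 x.2 y.2 v.2 u.2 : ℤ) : ℝ) - ((x4 x.2 y.2 w.2 u.2 : ℤ) : ℝ) +
        ((x4 x.2 y.2 w.2 v.2 : ℤ) : ℝ) := by exact_mod_cast h1
    unfold d3
    simp only [hph]
    linarith
  have hAA1 := hAA (X × Fin 4) (KB V m) (KB_down V hV m) n fF ph
    (fun a b c d => ((x4 a.2 b.2 c.2 d.2 : ℤ) : ℝ) / 48) hn hclF hclP hpp z hOnB hzc hpsi
  have hAB1 := hAB (X × Fin 4) (KB V m) (KB_down V hV m) n fF ph th lam hn hclF hclP z hOnB hzc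
  set q : X × Fin 4 → X × Fin 4 → X × Fin 4 → ℝ := fun a b c => 2 * ph a b c - d1 lam a b c
    with hq
  set r : X × Fin 4 → X × Fin 4 → X × Fin 4 → ℝ := fun a b c => fF a b c - d1 th a b c with hr
  have hzinv : ∀ g : Equiv.Perm (Fin 4), Equiv.Perm.sign g = 1 →
      mapL (2 * n + 1) (fun x : X × Fin 4 => (x.1, g x.2)) z = z := by
    intro g hg
    rw [hz, ← bdL_mapL, hinv g hg]
  have hqinv : ∀ g : Equiv.Perm (Fin 4), Equiv.Perm.sign g = 1 → ∀ a b c : X × Fin 4,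
      q (a.1, g a.2) (b.1, g b.2) (c.1, g c.2) = q a b c := by
    intro g hg a b c
    have e1 := (hL7 a.2 b.2 c.2 g hg).1
    have e2 := (hL7 a.2 b.2 c.2 g hg).2
    have e3 := (hL7 b.2 c.2 c.2 g hg).2
    have e4 := (hL7 a.2 c.2 c.2 g hg).2
    simp only [hq, hph, hlam, d1]
    rw [e1, e2, e3, e4]
  have hrinv : ∀ g : Equiv.Perm (Fin 4), ∀ a b c : X × Fin 4,
      r (a.1, g a.2) (b.1, g b.2) (c.1, g c.2) = r a b c := fun g a b c => rfl
  obtain ⟨N, hN⟩ := hTWL X (2 * n) (PL (q :: List.replicate (n - 1) r)) z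
    (by
      have := hDep (q :: List.replicate (n - 1) r)
      rwa [List.length_cons, List.length_replicate, Nat.sub_add_cancel hn] at this)
    hzinv
    (by
      intro g hg t _
      have h1 : (ex fun i => ((t i).1, g (t i).2)) =
          fun i => (fun x : X × Fin 4 => (x.1, g x.2)) (ex t i) := rfl
      rw [h1, PL_comp (fun x : X × Fin 4 => (x.1, g x.2))]
      congr 1
      rw [List.map_cons, List.map_replicate]
      congr 1
      funext a b c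
      exact hqinv g hg a b c)
    (by
      intro t _ hc
      unfold H58.FL.PL cup c2
      have h1 : ∀ i j : ℕ, (ex t i).2 = (ex t j).2 := fun i j => hc _ _
      have h2 : q (ex t 0) (ex t 1) (ex t 2) = 0 := by
        simp only [hq, hph, hlam, d1]
        rw [h1 1 0, h1 2 0, (hL8 _).1, (hL8 _).2]
        norm_num
      rw [h2, zero_mul])
    (by
      intro t ht
      have hS := hOnB t ht
      refine PL_int (Set.range t) _ ?_ (ex t) (ex_mem t)
      intro g hg a ha b hb c hc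
      rw [List.mem_cons] at hg
      rcases hg with rfl | hg
      · obtain ⟨k, hk⟩ := hL3 a.2 b.2 c.2
        refine ⟨k, ?_⟩
        have h2 : ((sg3 a.2 b.2 c.2 : ℤ) : ℝ) - (((x2 b.2 c.2 : ℤ) : ℝ) -
            ((x2 a.2 c.2 : ℤ) : ℝ) + ((x2 a.2 b.2 : ℤ) : ℝ)) = (k : ℝ) + k := by
          exact_mod_cast hk
        simp only [hq, hph, hlam, d1]
        linarith
      · rw [List.eq_of_mem_replicate hg]
        exact hint (Prod.fst '' Set.range t) hS.1.1 a.1 ⟨a, ha, rfl⟩ b.1 ⟨b, hb, rfl⟩ c.1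
          ⟨c, hc, rfl⟩)
  rw [hN] at hAB1
  -- back to b1
  obtain ⟨hE1, hE2, -, -, -, -, hE7⟩ := hEVL X (2 * n)
  have hz1 : mapL (2 * n + 1) Prod.fst z = (12 : ℤ) • bdL (2 * n + 1) X b1 := by
    rw [hz, ← bdL_mapL, hmap, map_smul]
  have hz2 : ev (2 * n) (PL (List.replicate n fF)) z =
      12 * ev (2 * n) (PL (List.replicate n f)) (bdL (2 * n + 1) X b1) := by
    have h1 := hE7 (PL (List.replicate n f)) (X × Fin 4) Prod.fst z
    rw [hz1, hE2] at h1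
    rw [Int.cast_ofNat] at h1
    rw [h1]
    congr 1
    funext y
    have h2 := PL_comp Prod.fst (List.replicate n f) y
    rw [List.map_replicate] at h2
    exact h2.symm
  refine ⟨N, ?_⟩
  rw [← hbdsum, hE1, hev0, add_zero]
  rw [hz2] at hAA1
  have h5 : 24 * ev (2 * n) (PL (List.replicate n f)) (bdL (2 * n + 1) X b1) =
      n * (12 * N) := by
    rw [← hAB1]
    linear_combination 2 * hAA1
  linarith

end

end Pool.Agent.H65.FL
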