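import Pool.Agent.H58.FL.Targets

/-!
MP_6a7a6f_gt, board flb_modules, row LFT.
-/

open Topology

namespace Pool.Agent.H65.FL.LFT

open Pool.Agent.H58.FL Pool.Agent.H59 Pool.Agent.H48.FR

noncomputable section

open Classical in
theorem bdL_single_apply {X : Type} (k : ℕ) (v : Fin (k + 1) → X) (r : ℤ) (t' : Fin k → X) :
    (bdL k X (Finsupp.single v r)) t' =
      r * ∑ i : Fin (k + 1), (-1 : ℤ) ^ (i : ℕ) * (if v ∘ i.succAbove = t' then 1 else 0) := by
  rw [bdL, altbd_single, Finsupp.smul_apply, Finsupp.finsetSum_apply, smul_eq_mul]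
  congr 1
  refine Finset.sum_congr rfl fun i _ => ?_
  rw [Finsupp.smul_apply, Finsupp.single_apply, smul_eq_mul]

open Classical in
theorem bdL_apply {X : Type} (k : ℕ) (b : LL (k + 1) X) (t' : Fin k → X) :
    (bdL k X b) t' = ∑ t ∈ b.support, b t *
      ∑ i : Fin (k + 1), (-1 : ℤ) ^ (i : ℕ) * (if t ∘ i.succAbove = t' then 1 else 0) := by
  conv_lhs => rw [← Finsupp.sum_single b]
  rw [Finsupp.sum, map_sum, Finsupp.finsetSum_apply]
  exact Finset.sum_congr rfl fun t _ => bdL_single_apply k t (b t) t'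

theorem bdL_support {X : Type} (k : ℕ) (c : LL (k + 1) X) (t : Fin k → X)
    (ht : t ∈ (bdL k X c).support) : ∃ s ∈ c.support, ∃ i : Fin (k + 1), t = s ∘ i.succAbove := by
  classical
  by_contra hcon
  push Not at hcon
  rw [Finsupp.mem_support_iff] at ht
  apply ht
  rw [bdL_apply]
  refine Finset.sum_eq_zero fun s hs => ?_
  rw [Finset.sum_eq_zero fun i _ => ?_, mul_zero]
  rw [if_neg (fun h => hcon s hs i h.symm), mul_zero]

/-- four different labels are all labels -/
theorem all4 : ∀ a b c d e : Fin 4, (a ≠ b ∧ a ≠ c ∧ a ≠ d ∧ b ≠ c ∧ b ≠ d ∧ c ≠ d) →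
    e = a ∨ e = b ∨ e = c ∨ e = d := by decide

/-- the unique permutation which fits -/
theorem uniq (hLAB : T_LAB) {n : ℕ} (p l : Fin n → Fin 4) (j1 j2 j3 j4 : Fin n)
    (hne : sg4 (p j1) (p j2) (p j3) (p j4) ≠ 0)
    (heq : ∀ a b c d : Fin n, sg4 (l a) (l b) (l c) (l d) = sg4 (p a) (p b) (p c) (p d)) :
    ∃ g : Equiv.Perm (Fin 4), Equiv.Perm.sign g = 1 ∧ (∀ j, g (p j) = l j) ∧
      ∀ g' : Equiv.Perm (Fin 4), (∀ j, g' (p j) = l j) → g' = g := by
  obtain ⟨-, -, -, hL4, -, -, -, -, hL9, -⟩ := hLAB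
  obtain ⟨g, hg, g1, g2, g3, g4⟩ := hL9 (p j1) (p j2) (p j3) (p j4) (l j1) (l j2) (l j3) (l j4)
    hne (heq j1 j2 j3 j4)
  have hd := (hL4 _ _ _ _).1 hne
  have hne' : sg4 (l j1) (l j2) (l j3) (l j4) ≠ 0 := by rw [heq]; exact hne
  have hd' := (hL4 _ _ _ _).1 hne'
  refine ⟨g, hg, ?_, ?_⟩
  · intro j
    rcases all4 _ _ _ _ (p j) hd with h | h | h | h
    · have h1 : sg4 (l j) (l j2) (l j3) (l j4) ≠ 0 := by rw [heq, h]; exact hne
      have h2 := (hL4 _ _ _ _).1 h1
      rw [h, g1]
      rcases all4 _ _ _ _ (l j) hd' with h3 | h3 | h3 | h3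
      · exact h3.symm
      · exact absurd h3 h2.1
      · exact absurd h3 h2.2.1
      · exact absurd h3 h2.2.2.1
    · have h1 : sg4 (l j1) (l j) (l j3) (l j4) ≠ 0 := by rw [heq, h]; exact hne
      have h2 := (hL4 _ _ _ _).1 h1
      rw [h, g2]
      rcases all4 _ _ _ _ (l j) hd' with h3 | h3 | h3 | h3
      · exact absurd h3.symm h2.1
      · exact h3.symm
      · exact absurd h3 h2.2.2.2.1
      · exact absurd h3 h2.2.2.2.2.1
    · have h1 : sg4 (l j1) (l j2) (l j) (l j4) ≠ 0 := by rw [heq, h]; exact hne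
      have h2 := (hL4 _ _ _ _).1 h1
      rw [h, g3]
      rcases all4 _ _ _ _ (l j) hd' with h3 | h3 | h3 | h3
      · exact absurd h3.symm h2.2.1
      · exact absurd h3.symm h2.2.2.2.1
      · exact h3.symm
      · exact absurd h3 h2.2.2.2.2.2
    · have h1 : sg4 (l j1) (l j2) (l j3) (l j) ≠ 0 := by rw [heq, h]; exact hne
      have h2 := (hL4 _ _ _ _).1 h1
      rw [h, g4]
      rcases all4 _ _ _ _ (l j) hd' with h3 | h3 | h3 | h3
      · exact absurd h3.symm h2.2.2.1
      · exact absurd h3.symm h2.2.2.2.2.1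
      · exact absurd h3.symm h2.2.2.2.2.2
      · exact h3.symm
  · intro g' hg'
    apply Equiv.ext
    intro e
    rcases all4 _ _ _ _ e hd with h | h | h | h
    · rw [h, hg', g1]
    · rw [h, hg', g2]
    · rw [h, hg', g3]
    · rw [h, hg', g4]

/-- the even permutations -/
def GG : Finset (Equiv.Perm (Fin 4)) := Finset.univ.filter fun g => Equiv.Perm.sign g = 1

theorem card_GG : GG.card = 12 := by
  unfold GG
  decide

/-- a labelled tuple -/
def lift {X : Type} {n : ℕ} (c : (Fin n → X) → X → Fin 4) (t : Fin n → X)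
    (g : Equiv.Perm (Fin 4)) : Fin n → X × Fin 4 := fun i => (t i, g (c t (t i)))

theorem pf_LFT (hLAB : T_LAB) : T_LFT := by
  classical
  intro X V hV m hlab k b hOn hmono hbd
  have hLAB' := hLAB
  obtain ⟨-, -, -, -, -, hL6, -, -, -, -⟩ := hLAB'
  -- choice of the labellings
  have hch : ∀ t : Fin (k + 2) → X, ∃ c : X → Fin 4, t ∈ b.support →
      ∀ x ∈ Set.range t, ∀ y ∈ Set.range t, ∀ z ∈ Set.range t, ∀ w ∈ Set.range t,
        m x y z w = sg4 (c x) (c y) (c z) (c w) := by
    intro t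
    by_cases ht : t ∈ b.support
    · obtain ⟨i, j, l, e, hne⟩ := hmono t ht
      obtain ⟨c, hc⟩ := hlab (Set.range t) (hOn t ht)
        ⟨_, ⟨i, rfl⟩, _, ⟨j, rfl⟩, _, ⟨l, rfl⟩, _, ⟨e, rfl⟩, hne⟩
      exact ⟨c, fun _ => hc⟩
    · exact ⟨fun _ => 0, fun h => absurd h ht⟩
  choose c hc using hch
  set bb : LL (k + 2) (X × Fin 4) := ∑ t ∈ b.support, ∑ g ∈ GG,
    Finsupp.single (lift c t g) (b t) with hbb
  have hsupp : ∀ u ∈ bb.support, ∃ t ∈ b.support, ∃ g ∈ GG, u = lift c t g := by
    intro u hu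
    by_contra hcon
    push Not at hcon
    rw [Finsupp.mem_support_iff] at hu
    apply hu
    rw [hbb, Finsupp.finsetSum_apply]
    refine Finset.sum_eq_zero fun t ht => ?_
    rw [Finsupp.finsetSum_apply]
    refine Finset.sum_eq_zero fun g hg => ?_
    rw [Finsupp.single_apply, if_neg (fun h => hcon t ht g hg h.symm)]
  have hOnA : On (KA V m) bb := by
    intro u hu
    obtain ⟨t, ht, g, hg, rfl⟩ := hsupp u hu
    have hg1 : Equiv.Perm.sign g = 1 := by
      unfold GG at hg
      exact (Finset.mem_filter.1 hg).2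
    constructor
    · have : Prod.fst '' Set.range (lift c t g) = Set.range t := by
        rw [← Set.range_comp]
        rfl
      rw [this]
      exact hOn t ht
    · rintro x ⟨i, rfl⟩ y ⟨j, rfl⟩ z ⟨l, rfl⟩ w ⟨e, rfl⟩
      have h1 := hc t ht (t i) ⟨i, rfl⟩ (t j) ⟨j, rfl⟩ (t l) ⟨l, rfl⟩ (t e) ⟨e, rfl⟩
      have h2 := hL6 (c t (t i)) (c t (t j)) (c t (t l)) (c t (t e)) g
      rw [hg1, Units.val_one, one_mul] at h2
      show m (t i) (t j) (t l) (t e) = _
      rw [h1]
      exact h2.symm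
  refine ⟨bb, ?_, hOnA, ?_, ?_⟩
  · -- the projection
    rw [hbb, map_sum]
    have h1 : ∀ t ∈ b.support, mapL (k + 2) Prod.fst
        (∑ g ∈ GG, Finsupp.single (lift c t g) (b t)) = (12 : ℤ) • Finsupp.single t (b t) := by
      intro t _
      rw [map_sum]
      have h2 : ∀ g ∈ GG, mapL (k + 2) Prod.fst (Finsupp.single (lift c t g) (b t)) =
          Finsupp.single t (b t) := by
        intro g _
        rw [mapL_single]
        rfl
      rw [Finset.sum_congr rfl h2, Finset.sum_const, card_GG]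
      rw [← natCast_zsmul]
      rfl
    rw [Finset.sum_congr rfl h1, ← Finset.smul_sum]
    congr 1
    exact Finsupp.sum_single b
  · -- the boundary
    intro u hu
    obtain ⟨s, hs, i0, hi0⟩ := bdL_support (k + 1) bb u hu
    have hKA : Set.range u ∈ KA V m := by
      have h1 := hOnA s hs
      have h2 : Set.range u ⊆ Set.range s := by
        rw [hi0]
        exact Set.range_comp_subset_range _ _
      exact ⟨hV _ h1.1 _ (Set.image_mono h2), fun x hx y hy z hz w hw =>
        h1.2 x (h2 hx) y (h2 hy) z (h2 hz) w (h2 hw)⟩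
    refine ⟨hKA, ?_⟩
    by_contra hcon
    push Not at hcon
    obtain ⟨x, ⟨j1, rfl⟩, y, ⟨j2, rfl⟩, z, ⟨j3, rfl⟩, w, ⟨j4, rfl⟩, hne⟩ := hcon
    rw [Finsupp.mem_support_iff] at hu
    apply hu
    set t' : Fin (k + 1) → X := fun j => (u j).1 with ht'
    have hcoef : ∀ t ∈ b.support, ∀ i : Fin (k + 2),
        ∑ g ∈ GG, (if lift c t g ∘ i.succAbove = u then (1 : ℤ) else 0) =
          if t ∘ i.succAbove = t' then 1 else 0 := by
      intro t ht i
      by_cases h : t ∘ i.succAbove = t'
      · rw [if_pos h]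
        have hj : ∀ j, t (i.succAbove j) = t' j := fun j => congrFun h j
        have hr : ∀ j, t' j ∈ Set.range t := fun j => ⟨_, hj j⟩
        obtain ⟨g, hg, hg1, hg2⟩ := uniq hLAB (fun j => c t (t' j)) (fun j => (u j).2) j1 j2 j3 j4
          (by
            have h1 := hc t ht _ (hr j1) _ (hr j2) _ (hr j3) _ (hr j4)
            rw [← h1]
            exact hne)
          (by
            intro a1 a2 a3 a4
            have h1 := hc t ht _ (hr a1) _ (hr a2) _ (hr a3) _ (hr a4)
            have h2 := hKA.2 _ ⟨a1, rfl⟩ _ ⟨a2, rfl⟩ _ ⟨a3, rfl⟩ _ ⟨a4, rfl⟩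
            rw [← h1, ← h2])
        rw [Finset.sum_eq_single g]
        · rw [if_pos]
          funext j
          show (t (i.succAbove j), g (c t (t (i.succAbove j)))) = u j
          rw [hj j, hg1 j]
        · intro g' _ hne'
          rw [if_neg]
          intro h3
          apply hne'
          apply hg2
          intro j
          have h4 := congrFun h3 j
          have h5 : (t (i.succAbove j), g' (c t (t (i.succAbove j)))) = u j := h4
          rw [hj j] at h5
          rw [← h5]
        · intro hnot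
          exfalso
          apply hnot
          unfold GG
          exact Finset.mem_filter.2 ⟨Finset.mem_univ _, hg⟩
      · rw [if_neg h]
        refine Finset.sum_eq_zero fun g _ => ?_
        rw [if_neg]
        intro h3
        apply h
        funext j
        have h4 := congrFun h3 j
        have h5 : (t (i.succAbove j), g (c t (t (i.succAbove j)))) = u j := h4
        show t (i.succAbove j) = (u j).1
        rw [← h5]
    have hzero : (bdL (k + 1) X b) t' = 0 := by
      by_contra hne0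
      exact hne (hbd t' (Finsupp.mem_support_iff.2 hne0) j1 j2 j3 j4)
    rw [← hzero, bdL_apply (k + 1) b t', hbb, map_sum, Finsupp.finsetSum_apply]
    refine Finset.sum_congr rfl fun t ht => ?_
    rw [map_sum, Finsupp.finsetSum_apply]
    simp only [bdL_single_apply]
    rw [← Finset.mul_sum, Finset.sum_comm]
    congr 1
    refine Finset.sum_congr rfl fun i _ => ?_
    rw [← Finset.mul_sum]
    congr 1
    convert hcoef t ht i
  · -- invariance
    intro h hh
    rw [hbb, map_sum]
    refine Finset.sum_congr rfl fun t _ => ?_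
    rw [map_sum]
    refine Finset.sum_bij (fun g _ => h * g) ?_ ?_ ?_ ?_
    · intro g hg
      unfold GG at hg ⊢
      rw [Finset.mem_filter] at hg ⊢
      refine ⟨Finset.mem_univ _, ?_⟩
      rw [map_mul, hh, hg.2, one_mul]
    · intro g _ g' _ hgg
      exact mul_left_cancel hgg
    · intro g hg
      refine ⟨h⁻¹ * g, ?_, ?_⟩
      · unfold GG at hg ⊢
        rw [Finset.mem_filter] at hg ⊢
        refine ⟨Finset.mem_univ _, ?_⟩
        rw [map_mul, Equiv.Perm.sign_inv, hh, hg.2, one_mul]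
      · exact mul_inv_cancel_left h g
    · intro g _
      rw [mapL_single]
      rfl

end

end Pool.Agent.H65.FL.LFT
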