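import Pool.Agent.H58.FL.TargetsD

/-!
Board fld_modules (MP_6a7a6f_gt), row SX: six points.
-/

namespace Pool.Agent.H65.FL

open Pool.Agent.H58.FL Pool.Agent.H59 Pool.Agent.H48.FR

section

variable {E : Type} [NormedAddCommGroup E] [InnerProductSpace ℂ E]

/-- four of the points form a monopole -/
private def Qs (p : Fin 6 → E) (a b c d : Fin 6) : Prop := mn (p a) (p b) (p c) (p d) ≠ 0

private lemma cl_comp {n m : ℕ} {p : Fin n → E} (hp : Cl p) (f : Fin m → Fin n) :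
    Cl (fun i => p (f i)) := ⟨fun i => hp.1 (f i), fun i j => hp.2 (f i) (f j)⟩

private lemma q12 (hMN4 : T_MN4) {p : Fin 6 → E} (hp : Cl p) (a b c d : Fin 6) (_h : b < a) :
    Qs p a b c d ↔ Qs p b a c d := by
  have h := ((hMN4 E).2.1 _ (cl_comp hp ![a, b, c, d])).2.1
  have h' : mn (p b) (p a) (p c) (p d) = -mn (p a) (p b) (p c) (p d) := h
  unfold Qs
  rw [h', neg_ne_zero]

private lemma q23 (hMN4 : T_MN4) {p : Fin 6 → E} (hp : Cl p) (a b c d : Fin 6) (_h : c < b) :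
    Qs p a b c d ↔ Qs p a c b d := by
  have h := ((hMN4 E).2.1 _ (cl_comp hp ![a, b, c, d])).2.2.1
  have h' : mn (p a) (p c) (p b) (p d) = -mn (p a) (p b) (p c) (p d) := h
  unfold Qs
  rw [h', neg_ne_zero]

private lemma q34 (hMN4 : T_MN4) {p : Fin 6 → E} (hp : Cl p) (a b c d : Fin 6) (_h : d < c) :
    Qs p a b c d ↔ Qs p a b d c := by
  have h := ((hMN4 E).2.1 _ (cl_comp hp ![a, b, c, d])).2.2.2
  have h' : mn (p a) (p b) (p d) (p c) = -mn (p a) (p b) (p c) (p d) := h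
  unfold Qs
  rw [h', neg_ne_zero]

private lemma exch (hR5 : T_R5) {p : Fin 6 → E} (hp : Cl p) (a b c d e : Fin 6)
    (h : Qs p a b c d) :
    (Qs p e b c d ∧ ¬ Qs p a e c d ∧ ¬ Qs p a b e d ∧ ¬ Qs p a b c e) ∨
    (¬ Qs p e b c d ∧ Qs p a e c d ∧ ¬ Qs p a b e d ∧ ¬ Qs p a b c e) ∨
    (¬ Qs p e b c d ∧ ¬ Qs p a e c d ∧ Qs p a b e d ∧ ¬ Qs p a b c e) ∨
    (¬ Qs p e b c d ∧ ¬ Qs p a e c d ∧ ¬ Qs p a b e d ∧ Qs p a b c e) := by
  have h1 := hR5 E _ (cl_comp hp ![a, b, c, d, e]) h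
  unfold Qs
  simp only [ne_eq, not_not]
  exact h1

end

private lemma x4_c {A B C D : Prop} (h : (A ∧ ¬B ∧ ¬C ∧ ¬D) ∨ (¬A ∧ B ∧ ¬C ∧ ¬D) ∨
    (¬A ∧ ¬B ∧ C ∧ ¬D) ∨ (¬A ∧ ¬B ∧ ¬C ∧ D)) (nA : ¬A) (nB : ¬B) (nD : ¬D) : C := by
  rcases h with h | h | h | h
  · exact absurd h.1 nA
  · exact absurd h.2.1 nB
  · exact h.2.2.1
  · exact absurd h.2.2.2 nD

private lemma x4_ab {A B C D : Prop} (h : (A ∧ ¬B ∧ ¬C ∧ ¬D) ∨ (¬A ∧ B ∧ ¬C ∧ ¬D) ∨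
    (¬A ∧ ¬B ∧ C ∧ ¬D) ∨ (¬A ∧ ¬B ∧ ¬C ∧ D)) (a : A) (b : B) : False := by
  rcases h with h | h | h | h
  · exact h.2.1 b
  · exact h.1 a
  · exact h.1 a
  · exact h.1 a

private lemma x4_none {A B C D : Prop} (h : (A ∧ ¬B ∧ ¬C ∧ ¬D) ∨ (¬A ∧ B ∧ ¬C ∧ ¬D) ∨
    (¬A ∧ ¬B ∧ C ∧ ¬D) ∨ (¬A ∧ ¬B ∧ ¬C ∧ D)) (nA : ¬A) (nB : ¬B) (nC : ¬C) (nD : ¬D) :
    False := nC (x4_c h nA nB nD)

private lemma x4_a {A B C D : Prop} (h : (A ∧ ¬B ∧ ¬C ∧ ¬D) ∨ (¬A ∧ B ∧ ¬C ∧ ¬D) ∨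
    (¬A ∧ ¬B ∧ C ∧ ¬D) ∨ (¬A ∧ ¬B ∧ ¬C ∧ D)) (a : A) : ¬B ∧ ¬C ∧ ¬D := by
  rcases h with h | h | h | h
  · exact h.2
  · exact absurd a h.1
  · exact absurd a h.1
  · exact absurd a h.1

/-- SX: six points. -/
theorem pf_SX (hMN4 : T_MN4) (hR5 : T_R5) (hPEN : T_PEN) (hHEX : T_HEX) (hTTT : T_TTT) :
    T_SX := by
  intro E _ _ p hp h1 h2
  by_contra h3
  have e15 : Qs p 0 2 3 4 := h1
  have e05 : Qs p 1 2 3 4 := h2
  have e34 : Qs p 0 1 2 5 := h3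
  have v5 := exch hR5 hp 0 2 3 4 1 e15
  have v0 := exch hR5 hp 1 2 3 4 5 e05
  have v1 := exch hR5 hp 0 2 3 4 5 e15
  have v3 := exch hR5 hp 0 1 2 5 4 e34
  have v4 := exch hR5 hp 0 1 2 5 3 e34
  have v2 := exch hR5 hp 0 3 4 5 1
  simp (disch := decide) only [q12 hMN4 hp, q23 hMN4 hp, q34 hMN4 hp] at v5 v0 v1 v3 v4 v2
  -- the five points different from the last one
  have w5 : ¬ Qs p 0 1 3 4 ∧ ¬ Qs p 0 1 2 4 ∧ ¬ Qs p 0 1 2 3 := by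
    rcases v5 with h | h | h | h
    · exact h.2
    · exact absurd e05 h.1
    · exact absurd e05 h.1
    · exact absurd e05 h.1
  obtain ⟨_, n35, n45⟩ := w5
  have hex : ∀ f : Fin 6 → Fin 6, Qs p (f 0) (f 1) (f 2) (f 3) → Qs p (f 1) (f 2) (f 3) (f 4) →
      Qs p (f 2) (f 3) (f 4) (f 5) → Qs p (f 3) (f 4) (f 5) (f 0) →
      Qs p (f 4) (f 5) (f 0) (f 1) → Qs p (f 5) (f 0) (f 1) (f 2) → False :=
    fun f a b c d e g => hHEX E _ (cl_comp hp f) a b c d e g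
  have pen : ∀ f : Fin 6 → Fin 6, Qs p (f 5) (f 0) (f 1) (f 3) → Qs p (f 5) (f 1) (f 2) (f 4) →
      Qs p (f 5) (f 2) (f 3) (f 0) → Qs p (f 5) (f 3) (f 4) (f 1) →
      Qs p (f 5) (f 4) (f 0) (f 2) → False :=
    fun f a b c d e => hPEN E _ (cl_comp hp f) a b c d e
  rcases v0 with ⟨e01, n02, n03, n04⟩ | ⟨n01, e02, n03, n04⟩ | ⟨n01, n02, e03, n04⟩ |
    ⟨n01, n02, n03, e04⟩
  · -- two triangles
    have w1 : ¬ Qs p 0 3 4 5 ∧ ¬ Qs p 0 2 4 5 ∧ ¬ Qs p 0 2 3 5 := by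
      rcases v1 with h | h | h | h
      · exact h.2
      · exact absurd e01 h.1
      · exact absurd e01 h.1
      · exact absurd e01 h.1
    obtain ⟨_, n13, n14⟩ := w1
    have e23 : Qs p 0 1 4 5 := x4_c v3 n03 n13 n35
    have e24 : Qs p 0 1 3 5 := x4_c v4 n04 n14 n45
    refine hTTT E _ (cl_comp hp ![0, 1, 5, 2, 3, 4]) (show Qs p 0 1 5 2 from ?_)
      (show Qs p 0 1 5 3 from ?_) (show Qs p 0 1 5 4 from ?_) (show Qs p 0 2 3 4 from e15)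
      (show Qs p 1 2 3 4 from e05) (show Qs p 5 2 3 4 from ?_)
    all_goals
      simp (disch := decide) only [q12 hMN4 hp, q23 hMN4 hp, q34 hMN4 hp]
      assumption
  · -- the edge 0 2
    rcases v1 with ⟨e01, _⟩ | ⟨_, e12, n13, n14⟩ | ⟨_, n12, e13, n14⟩ | ⟨_, n12, n13, e14⟩
    · exact absurd e01 n01
    · exact x4_none v3 n03 n13 (x4_a (v2 e12) e02).1 n35
    · have e24 : Qs p 0 1 3 5 := x4_c v4 n04 n14 n45
      refine hex ![0, 5, 1, 3, 4, 2] (show Qs p 0 5 1 3 from ?_) (show Qs p 5 1 3 4 from ?_)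
        (show Qs p 1 3 4 2 from ?_) (show Qs p 3 4 2 0 from ?_) (show Qs p 4 2 0 5 from ?_)
        (show Qs p 2 0 5 1 from ?_)
      all_goals
        simp (disch := decide) only [q12 hMN4 hp, q23 hMN4 hp, q34 hMN4 hp]
        assumption
    · have e23 : Qs p 0 1 4 5 := x4_c v3 n03 n13 n35
      refine hex ![0, 5, 1, 4, 3, 2] (show Qs p 0 5 1 4 from ?_) (show Qs p 5 1 4 3 from ?_)
        (show Qs p 1 4 3 2 from ?_) (show Qs p 4 3 2 0 from ?_) (show Qs p 3 2 0 5 from ?_)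
        (show Qs p 2 0 5 1 from ?_)
      all_goals
        simp (disch := decide) only [q12 hMN4 hp, q23 hMN4 hp, q34 hMN4 hp]
        assumption
  · -- the edge 0 3
    rcases v1 with ⟨e01, _⟩ | ⟨_, e12, n13, n14⟩ | ⟨_, n12, e13, n14⟩ | ⟨_, n12, n13, e14⟩
    · exact absurd e01 n01
    · have e24 : Qs p 0 1 3 5 := x4_c v4 n04 n14 n45
      refine hex ![1, 5, 0, 3, 4, 2] (show Qs p 1 5 0 3 from ?_) (show Qs p 5 0 3 4 from ?_)
        (show Qs p 0 3 4 2 from ?_) (show Qs p 3 4 2 1 from ?_) (show Qs p 4 2 1 5 from ?_)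
        (show Qs p 2 1 5 0 from ?_)
      all_goals
        simp (disch := decide) only [q12 hMN4 hp, q23 hMN4 hp, q34 hMN4 hp]
        assumption
    · exact x4_ab v3 e03 e13
    · refine pen ![1, 3, 5, 4, 0, 2] (show Qs p 2 1 3 4 from ?_) (show Qs p 2 3 5 0 from ?_)
        (show Qs p 2 5 4 1 from ?_) (show Qs p 2 4 0 3 from ?_) (show Qs p 2 0 1 5 from ?_)
      all_goals
        simp (disch := decide) only [q12 hMN4 hp, q23 hMN4 hp, q34 hMN4 hp]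
        assumption
  · -- the edge 0 4
    rcases v1 with ⟨e01, _⟩ | ⟨_, e12, n13, n14⟩ | ⟨_, n12, e13, n14⟩ | ⟨_, n12, n13, e14⟩
    · exact absurd e01 n01
    · have e23 : Qs p 0 1 4 5 := x4_c v3 n03 n13 n35
      refine hex ![1, 5, 0, 4, 3, 2] (show Qs p 1 5 0 4 from ?_) (show Qs p 5 0 4 3 from ?_)
        (show Qs p 0 4 3 2 from ?_) (show Qs p 4 3 2 1 from ?_) (show Qs p 3 2 1 5 from ?_)
        (show Qs p 2 1 5 0 from ?_)
      all_goals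
        simp (disch := decide) only [q12 hMN4 hp, q23 hMN4 hp, q34 hMN4 hp]
        assumption
    · refine pen ![1, 4, 5, 3, 0, 2] (show Qs p 2 1 4 3 from ?_) (show Qs p 2 4 5 0 from ?_)
        (show Qs p 2 5 3 1 from ?_) (show Qs p 2 3 0 4 from ?_) (show Qs p 2 0 1 5 from ?_)
      all_goals
        simp (disch := decide) only [q12 hMN4 hp, q23 hMN4 hp, q34 hMN4 hp]
        assumption
    · exact x4_ab v4 e04 e14

end Pool.Agent.H65.FL
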